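import Pool.Agent.Y393.RS.Stmts

set_option autoImplicit false

/-! Project RS: ratio estimates for the binomial distribution. -/

namespace Pool.Agent.Y891.RS

open Finset Pool.Agent.Y393.RS Filter

theorem pb_nonneg (d k : ℕ) : 0 ≤ pb d k := by
  unfold pb
  positivity

theorem pb_zero {d k : ℕ} (h : d < k) : pb d k = 0 := by
  unfold pb
  rw [Nat.choose_eq_zero_of_lt h]
  simp

theorem tb_nonneg (d k : ℕ) : 0 ≤ tb d k := sum_nonneg fun _ _ => pb_nonneg _ _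

theorem tb_ge (d a b : ℕ) : ∑ i ∈ Icc a b, pb d i ≤ tb d a := by
  have h1 : tb d a = ∑ i ∈ Icc a (max b d), pb d i := by
    unfold tb
    refine sum_subset (Icc_subset_Icc le_rfl (le_max_right _ _)) fun i hi hi' => ?_
    rw [mem_Icc] at hi hi'
    exact pb_zero (by omega)
  rw [h1]
  exact sum_le_sum_of_subset_of_nonneg (Icc_subset_Icc le_rfl (le_max_left _ _))
    fun i _ _ => pb_nonneg _ _

theorem pb_le_tb (d k : ℕ) : pb d k ≤ tb d k := by
  have h := tb_ge d k k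
  rwa [Icc_self, sum_singleton] at h

theorem pb_succ (d j : ℕ) (x : ℝ) (h : (1 - x) * ((j : ℝ) + 1) ≤ (d : ℝ) - j) :
    (1 - x) * pb d j ≤ pb d (j + 1) := by
  rcases Nat.lt_or_ge d j with hj | hj
  · rw [pb_zero hj, mul_zero]
    exact pb_nonneg _ _
  · have h1 := Nat.choose_succ_right_eq d j
    have h2 : (d.choose (j + 1) : ℝ) * ((j : ℝ) + 1) = d.choose j * ((d : ℝ) - j) := by
      have : ((d.choose (j + 1) * (j + 1) : ℕ) : ℝ) = ((d.choose j * (d - j) : ℕ) : ℝ) := by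
        rw [h1]
      push_cast [Nat.cast_sub hj] at this
      exact this
    have hj0 : (0 : ℝ) < (j : ℝ) + 1 := by positivity
    unfold pb
    rw [mul_div_assoc']
    apply div_le_div_of_nonneg_right _ (by positivity)
    have h3 : (1 - x) * (d.choose j : ℝ) * ((j : ℝ) + 1) ≤ (d.choose (j + 1) : ℝ) * ((j : ℝ) + 1) := by
      rw [h2]
      have h4 : (0 : ℝ) ≤ d.choose j := by positivity
      nlinarith
    exact le_of_mul_le_mul_right h3 hj0

theorem pb_add (d j : ℕ) (x : ℝ) (hx : 0 ≤ 1 - x) (w : ℕ)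
    (h : (1 - x) * (((j + w : ℕ) : ℝ) + 1) ≤ (d : ℝ) - ((j + w : ℕ) : ℝ)) :
    (1 - x) ^ w * pb d j ≤ pb d (j + w) := by
  induction w with
  | zero => simp
  | succ w ih =>
    have h1 : (1 - x) * (((j + w : ℕ) : ℝ) + 1) ≤ (d : ℝ) - ((j + w : ℕ) : ℝ) := by
      push_cast at h ⊢
      nlinarith
    have h2 := ih h1
    have h3 := pb_succ d (j + w) x h1
    calc (1 - x) ^ (w + 1) * pb d j = (1 - x) * ((1 - x) ^ w * pb d j) := by ring
      _ ≤ (1 - x) * pb d (j + w) := mul_le_mul_of_nonneg_left h2 hx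
      _ ≤ pb d (j + w + 1) := h3

theorem Lm_sq (n : ℕ) (hn : 1 ≤ n) : Lm n ^ 2 = n * Real.log n := by
  unfold Lm
  have : 0 ≤ Real.log n := Real.log_nonneg (by exact_mod_cast hn)
  exact Real.sq_sqrt (by positivity)

/-- the numbers -/
theorem facts (c : ℝ) (hc : 0 < c) : ∀ᶠ n : ℕ in atTop, 1 ≤ n ∧ 4 ≤ Lm n ∧
    20 * Lm n / (c * n) ≤ 1 / 2 ∧ (n : ℝ) ^ (9 / 20 : ℝ) ≤ Lm n ∧
    20 * Lm n / (c * n) * (n : ℝ) ^ (9 / 20 : ℝ) ≤ 1 / 2 ∧
    2 * (n : ℝ) ^ (2 / 5 : ℝ) ≤ (n : ℝ) ^ (9 / 20 : ℝ) - 1 ∧ 400 ≤ Real.log n := by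
  have e1 : ∀ᶠ n : ℕ in atTop, 400 ≤ Real.log n :=
    (Real.tendsto_log_atTop.comp tendsto_natCast_atTop_atTop).eventually_ge_atTop 400
  have e2 : ∀ᶠ n : ℕ in atTop, Real.log n ≤ (n : ℝ) ^ (1 / 50 : ℝ) := by
    have h := (isLittleO_log_rpow_atTop (show (0 : ℝ) < 1 / 50 by norm_num)).bound
      (show (0 : ℝ) < 1 by norm_num)
    have h2 := tendsto_natCast_atTop_atTop.eventually h
    filter_upwards [h2, e1] with n hn hn1
    rw [one_mul, Real.norm_eq_abs, Real.norm_eq_abs] at hn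
    have h3 : |(n : ℝ) ^ (1 / 50 : ℝ)| = (n : ℝ) ^ (1 / 50 : ℝ) := abs_of_nonneg (by positivity)
    rw [h3] at hn
    exact (le_abs_self _).trans hn
  have e3 : ∀ᶠ n : ℕ in atTop, 20 / c * (n : ℝ) ^ (-(1 / 25) : ℝ) ≤ 1 / 2 := by
    have h := (tendsto_rpow_neg_atTop (show (0 : ℝ) < 1 / 25 by norm_num)).const_mul (20 / c)
    rw [mul_zero] at h
    exact (h.comp tendsto_natCast_atTop_atTop).eventually_le_const (by norm_num)
  have e4 : ∀ᶠ n : ℕ in atTop, 3 ≤ (n : ℝ) ^ (1 / 20 : ℝ) :=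
    ((tendsto_rpow_atTop (show (0 : ℝ) < 1 / 20 by norm_num)).comp
      tendsto_natCast_atTop_atTop).eventually_ge_atTop 3
  filter_upwards [e1, e2, e3, e4, eventually_ge_atTop 16] with n h1 h2 h3 h4 h5
  have hn1 : (1 : ℝ) ≤ n := by exact_mod_cast (by omega : 1 ≤ n)
  have hn16 : (16 : ℝ) ≤ n := by exact_mod_cast h5
  have hn0 : (0 : ℝ) < n := by linarith
  have hL1 : Real.sqrt n ≤ Lm n := by
    unfold Lm
    apply Real.sqrt_le_sqrt
    nlinarith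
  have hL4 : 4 ≤ Lm n := by
    refine le_trans ?_ hL1
    rw [show (4 : ℝ) = Real.sqrt 16 by
      rw [show (16 : ℝ) = 4 ^ 2 by norm_num, Real.sqrt_sq (by norm_num)]]
    exact Real.sqrt_le_sqrt hn16
  have hLu : Lm n ≤ (n : ℝ) ^ (51 / 100 : ℝ) := by
    unfold Lm
    have h6 : (n : ℝ) * Real.log n ≤ (n : ℝ) ^ (51 / 50 : ℝ) := by
      calc (n : ℝ) * Real.log n ≤ n * (n : ℝ) ^ (1 / 50 : ℝ) := by gcongr
        _ = (n : ℝ) ^ (51 / 50 : ℝ) := by
            rw [show (51 / 50 : ℝ) = 1 + 1 / 50 by norm_num, Real.rpow_add hn0, Real.rpow_one]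
    calc Real.sqrt (n * Real.log n) ≤ Real.sqrt ((n : ℝ) ^ (51 / 50 : ℝ)) :=
          Real.sqrt_le_sqrt h6
      _ = (n : ℝ) ^ (51 / 100 : ℝ) := by
          rw [Real.sqrt_eq_rpow, ← Real.rpow_mul hn0.le]
          norm_num
  have h9 : (1 : ℝ) ≤ (n : ℝ) ^ (9 / 20 : ℝ) := Real.one_le_rpow hn1 (by norm_num)
  have h10 : 20 * Lm n / (c * n) * (n : ℝ) ^ (9 / 20 : ℝ) ≤ 1 / 2 := by
    have e : 20 / c * (n : ℝ) ^ (-(1 / 25) : ℝ) =
        20 * (n : ℝ) ^ (51 / 100 : ℝ) / (c * n) * (n : ℝ) ^ (9 / 20 : ℝ) := by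
      have e' : (n : ℝ) ^ (-(1 / 25) : ℝ) * n =
          (n : ℝ) ^ (51 / 100 : ℝ) * (n : ℝ) ^ (9 / 20 : ℝ) := by
        rw [← Real.rpow_add hn0]
        nth_rewrite 2 [← Real.rpow_one (n : ℝ)]
        rw [← Real.rpow_add hn0]
        norm_num
      field_simp
      rw [e']
    rw [e] at h3
    refine le_trans ?_ h3
    gcongr
  refine ⟨by omega, hL4, ?_, ?_, h10, ?_, h1⟩
  · have h11 : 0 ≤ 20 * Lm n / (c * n) := by positivity
    calc 20 * Lm n / (c * n) = 20 * Lm n / (c * n) * 1 := by ring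
      _ ≤ 20 * Lm n / (c * n) * (n : ℝ) ^ (9 / 20 : ℝ) := by gcongr
      _ ≤ 1 / 2 := h10
  · refine le_trans ?_ hL1
    rw [Real.sqrt_eq_rpow]
    exact Real.rpow_le_rpow_of_exponent_le hn1 (by norm_num)
  · have e : (n : ℝ) ^ (9 / 20 : ℝ) = (n : ℝ) ^ (2 / 5 : ℝ) * (n : ℝ) ^ (1 / 20 : ℝ) := by
      rw [← Real.rpow_add hn0]
      norm_num
    rw [e]
    have h12 : (1 : ℝ) ≤ (n : ℝ) ^ (2 / 5 : ℝ) := Real.one_le_rpow hn1 (by norm_num)
    nlinarith

theorem cond_y (n d : ℕ) (c y : ℝ) (hc : 0 < c) (hn : 1 ≤ n) (hd : c * n ≤ d) (hL : 4 ≤ Lm n)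
    (hx : 20 * Lm n / (c * n) ≤ 1 / 2) (hy : y ≤ (d : ℝ) / 2 + 3 * Lm n) :
    (1 - 20 * Lm n / (c * n)) * (y + 1) ≤ (d : ℝ) - y := by
  have hn0 : (0 : ℝ) < n := by exact_mod_cast hn
  have hcn : 0 < c * n := by positivity
  obtain ⟨x, hxd⟩ : ∃ x : ℝ, x = 20 * Lm n / (c * n) := ⟨_, rfl⟩
  have hx0 : 0 ≤ x := by rw [hxd]; positivity
  have h1 : 10 * Lm n ≤ x * (d / 2) := by
    rw [hxd]
    have : 20 * Lm n / (c * n) * ((c * n) / 2) = 10 * Lm n := by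
      field_simp
      ring
    rw [← this]
    gcongr
  rw [← hxd] at hx ⊢
  have h2 : (1 - x) * (y + 1) ≤ (1 - x) * (d / 2 + 3 * Lm n + 1) := by
    apply mul_le_mul_of_nonneg_left _ (by linarith)
    linarith
  nlinarith

theorem tb_one_of (h : S_tb_tail) : S_tb_one := by
  intro c hc
  obtain ⟨n1, h1⟩ := h
  obtain ⟨n2, h2⟩ := eventually_atTop.1 (facts c hc)
  refine ⟨max n1 n2, fun n hn d k hcd hdn => ?_⟩
  obtain ⟨hn1, hL, hx, hnL, hxn, hn5, hlog⟩ := h2 n (le_trans (le_max_right _ _) hn)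
  have hn0 : (0 : ℝ) < n := by exact_mod_cast hn1
  have ht := h1 n (le_trans (le_max_left _ _) hn) d k hdn
  rcases le_or_gt ((d : ℝ) / 2 + 2 * Lm n) k with hk | hk
  · have h3 := ht hk
    have h4 := pb_le_tb d k
    have h5 : 0 ≤ (n : ℝ) ^ (-(2 / 5) : ℝ) * tb d (k + 1) :=
      mul_nonneg (by positivity) (tb_nonneg _ _)
    linarith
  · obtain ⟨x, hxd⟩ : ∃ x : ℝ, x = 20 * Lm n / (c * n) := ⟨_, rfl⟩
    have hx0 : 0 ≤ x := by rw [hxd]; positivity
    obtain ⟨J, hJ⟩ : ∃ J : ℕ, J = ⌊(n : ℝ) ^ (9 / 20 : ℝ)⌋₊ := ⟨_, rfl⟩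
    have hJ1 : (J : ℝ) ≤ (n : ℝ) ^ (9 / 20 : ℝ) := by
      rw [hJ]; exact Nat.floor_le (by positivity)
    have hJ2 : (n : ℝ) ^ (9 / 20 : ℝ) < J + 1 := by
      rw [hJ]; exact Nat.lt_floor_add_one _
    have hpow : 1 / 2 ≤ (1 - x) ^ J := by
      have h3 := one_add_mul_le_pow (a := -x) (by rw [← hxd] at hx; linarith) J
      have h4 : (J : ℝ) * x ≤ 1 / 2 := by
        calc (J : ℝ) * x ≤ (n : ℝ) ^ (9 / 20 : ℝ) * x := by gcongr
          _ ≤ 1 / 2 := by rw [hxd, mul_comm]; exact hxn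
      have h5 : (1 + -x : ℝ) = 1 - x := by ring
      rw [h5] at h3
      linarith
    have hterm : ∀ i ∈ Icc (k + 1) (k + J), 1 / 2 * pb d k ≤ pb d i := by
      intro i hi
      rw [mem_Icc] at hi
      obtain ⟨w, rfl⟩ : ∃ w, i = k + w := ⟨i - k, by omega⟩
      have hw : (w : ℝ) ≤ J := by exact_mod_cast (by omega : w ≤ J)
      have h3 := cond_y n d c ((k + w : ℕ) : ℝ) hc hn1 hcd hL hx (by push_cast; linarith)
      rw [← hxd] at h3
      have h4 := pb_add d k x (by rw [← hxd] at hx; linarith) w h3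
      refine le_trans ?_ h4
      apply mul_le_mul_of_nonneg_right _ (pb_nonneg _ _)
      refine hpow.trans ?_
      rw [← hxd] at hx
      exact pow_le_pow_of_le_one (by linarith) (by linarith) (by omega)
    have hsum : (J : ℝ) * (1 / 2 * pb d k) ≤ tb d (k + 1) := by
      refine le_trans ?_ (tb_ge d (k + 1) (k + J))
      have h3 := card_nsmul_le_sum (Icc (k + 1) (k + J)) (fun i => pb d i) _ hterm
      rw [Nat.card_Icc, nsmul_eq_mul] at h3
      have h4 : k + J + 1 - (k + 1) = J := by omega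
      rwa [h4] at h3
    have h3 : (n : ℝ) ^ (2 / 5 : ℝ) * pb d k ≤ tb d (k + 1) := by
      refine le_trans ?_ hsum
      have h4 := pb_nonneg d k
      nlinarith
    have h4 : pb d k ≤ (n : ℝ) ^ (-(2 / 5) : ℝ) * tb d (k + 1) := by
      rw [Real.rpow_neg hn0.le]
      have h5 : (0 : ℝ) < (n : ℝ) ^ (2 / 5 : ℝ) := by positivity
      rw [← div_eq_inv_mul, le_div_iff₀ h5, mul_comm]
      exact h3
    have h5 : (0 : ℝ) < (n : ℝ) ^ (-7 : ℝ) := by positivity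
    linarith

theorem exp_le_one_sub {x : ℝ} (h0 : 0 ≤ x) (h1 : x ≤ 1 / 2) : Real.exp (-(2 * x)) ≤ 1 - x := by
  have h2 := Real.add_one_le_exp (2 * x)
  rw [Real.exp_neg]
  have h3 : (1 : ℝ) ≤ (1 - x) * Real.exp (2 * x) := by
    calc (1 : ℝ) ≤ (1 - x) * (2 * x + 1) := by nlinarith
      _ ≤ (1 - x) * Real.exp (2 * x) := by
        apply mul_le_mul_of_nonneg_left h2
        linarith
  rw [inv_le_iff_one_le_mul₀ (Real.exp_pos _)]
  exact h3

theorem tb_shift_of (h : S_tb_tail) : S_tb_shift := by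
  intro c hc
  refine ⟨min (c / 8000) (1 / 2), lt_min (by positivity) (by norm_num), ?_⟩
  obtain ⟨ε, hε⟩ : ∃ ε : ℝ, ε = min (c / 8000) (1 / 2) := ⟨_, rfl⟩
  rw [← hε]
  have hε0 : 0 < ε := by rw [hε]; exact lt_min (by positivity) (by norm_num)
  have hε1 : ε ≤ c / 8000 := by rw [hε]; exact min_le_left _ _
  have hε2 : ε ≤ 1 / 2 := by rw [hε]; exact min_le_right _ _
  obtain ⟨n1, h1⟩ := h
  obtain ⟨n2, h2⟩ := eventually_atTop.1 (facts c hc)
  refine ⟨max n1 n2, fun n hn d k w hcd hdn hw => ?_⟩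
  obtain ⟨hn1, hL, hx, hnL, hxn, hn5, hlog⟩ := h2 n (le_trans (le_max_right _ _) hn)
  have hn0 : (0 : ℝ) < n := by exact_mod_cast hn1
  obtain ⟨K, hK⟩ : ∃ K : ℕ, K = ⌈(d : ℝ) / 2 + 2 * Lm n⌉₊ := ⟨_, rfl⟩
  have hK1 : (d : ℝ) / 2 + 2 * Lm n ≤ K := by rw [hK]; exact Nat.le_ceil _
  have hK2 : ∀ i : ℕ, i < K → (i : ℝ) < (d : ℝ) / 2 + 2 * Lm n := by
    intro i hi
    rw [hK] at hi
    exact Nat.lt_ceil.1 hi
  have ht := h1 n (le_trans (le_max_left _ _) hn) d K hdn hK1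
  obtain ⟨x, hxd⟩ : ∃ x : ℝ, x = 20 * Lm n / (c * n) := ⟨_, rfl⟩
  have hx0 : 0 ≤ x := by rw [hxd]; positivity
  have hsplit : tb d k = ∑ i ∈ (Icc k d).filter (fun i => i < K), pb d i +
      ∑ i ∈ (Icc k d).filter (fun i => ¬ i < K), pb d i := by
    unfold tb
    rw [sum_filter_add_sum_filter_not]
  have hsec : ∑ i ∈ (Icc k d).filter (fun i => ¬ i < K), pb d i ≤ (n : ℝ) ^ (-7 : ℝ) := by
    refine le_trans ?_ ht
    unfold tb
    refine sum_le_sum_of_subset_of_nonneg (fun i hi => ?_) (fun i _ _ => pb_nonneg _ _)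
    rw [mem_filter, mem_Icc] at hi
    rw [mem_Icc]
    omega
  have hpow : (n : ℝ) ^ (-(1 / 100) : ℝ) ≤ (1 - x) ^ w := by
    have h3 := exp_le_one_sub hx0 (by rw [hxd]; exact hx)
    have h4 : Real.exp (-(2 * x)) ^ w ≤ (1 - x) ^ w :=
      pow_le_pow_left₀ (Real.exp_pos _).le h3 w
    refine le_trans ?_ h4
    rw [← Real.exp_nat_mul, Real.rpow_def_of_pos hn0]
    apply Real.exp_le_exp.2
    have h5 : x * w ≤ Real.log n / 200 := by
      have h6 : x * w ≤ x * (ε * Lm n + 2) := mul_le_mul_of_nonneg_left hw hx0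
      have h7 : x * (ε * Lm n) ≤ Real.log n / 400 := by
        have h8 : x * (ε * Lm n) = 20 * ε / (c * n) * (Lm n ^ 2) := by rw [hxd]; ring
        rw [h8, Lm_sq n hn1]
        have h9 : 20 * ε / (c * n) * (n * Real.log n) = 20 * ε / c * Real.log n := by
          field_simp
        rw [h9]
        have h10 : 20 * ε / c ≤ 1 / 400 := by
          rw [div_le_iff₀ hc]
          linarith
        calc 20 * ε / c * Real.log n ≤ 1 / 400 * Real.log n := by gcongr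
          _ = Real.log n / 400 := by ring
      have h11 : x * 2 ≤ Real.log n / 400 := by
        rw [← hxd] at hx
        linarith
      linarith
    linarith
  have hterm : ∀ i ∈ (Icc k d).filter (fun i => i < K), pb d i ≤
      (n : ℝ) ^ (1 / 100 : ℝ) * pb d (i + w) := by
    intro i hi
    rw [mem_filter] at hi
    have h3 := hK2 i hi.2
    have h4 := cond_y n d c ((i + w : ℕ) : ℝ) hc hn1 hcd hL hx (by
      push_cast
      nlinarith)
    rw [← hxd] at h4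
    have h5 := pb_add d i x (by rw [← hxd] at hx; linarith) w h4
    have h6 : (n : ℝ) ^ (-(1 / 100) : ℝ) * pb d i ≤ pb d (i + w) :=
      (mul_le_mul_of_nonneg_right hpow (pb_nonneg _ _)).trans h5
    have h7 : (n : ℝ) ^ (1 / 100 : ℝ) * ((n : ℝ) ^ (-(1 / 100) : ℝ) * pb d i) = pb d i := by
      rw [← mul_assoc, ← Real.rpow_add hn0]
      norm_num
    calc pb d i = (n : ℝ) ^ (1 / 100 : ℝ) * ((n : ℝ) ^ (-(1 / 100) : ℝ) * pb d i) := h7.symm
      _ ≤ (n : ℝ) ^ (1 / 100 : ℝ) * pb d (i + w) := by gcongr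
  have hfirst : ∑ i ∈ (Icc k d).filter (fun i => i < K), pb d i ≤
      (n : ℝ) ^ (1 / 100 : ℝ) * tb d (k + w) := by
    refine (sum_le_sum hterm).trans ?_
    rw [← mul_sum]
    apply mul_le_mul_of_nonneg_left _ (by positivity)
    calc ∑ i ∈ (Icc k d).filter (fun i => i < K), pb d (i + w)
        ≤ ∑ i ∈ Icc k d, pb d (i + w) :=
          sum_le_sum_of_subset_of_nonneg (filter_subset _ _) (fun i _ _ => pb_nonneg _ _)
      _ = ∑ i ∈ Icc (k + w) (d + w), pb d i := by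
          rw [← Finset.map_add_right_Icc, sum_map]
          rfl
      _ ≤ tb d (k + w) := tb_ge _ _ _
  rw [hsplit]
  linarith

end Pool.Agent.Y891.RS
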