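import Pool.Agent.Y891.RS.Tail
import Pool.Agent.Y891.RS.Ratio

set_option autoImplicit false

/-! Project RS: a unique vertex of maximum degree, with a gap. -/

namespace Pool.Agent.Y891.RS

open Finset Pool.Agent.Y393.RS Filter

theorem sum_pr_le {Ω : Type} [Fintype Ω] (S : Finset ℕ) (P : ℕ → Ω → Prop) (Q : Ω → Prop) (c : ℕ)
    (h : ∀ x, ∀ l ∈ S, P l x → Q x) (U : Ω → Finset ℕ) (hU : ∀ x, ∀ l ∈ S, P l x → l ∈ U x)
    (hc : ∀ x, (U x).card ≤ c) : ∑ l ∈ S, pr (P l) ≤ c * pr Q := by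
  classical
  have h1 : ∀ P : Ω → Prop, pr P = (∑ x, if P x then (1 : ℝ) else 0) / (Fintype.card Ω : ℝ) := by
    intro P
    unfold pr
    rw [card_filter]
    push_cast
    rfl
  simp only [h1]
  rw [← sum_div, mul_div_assoc', sum_comm]
  apply div_le_div_of_nonneg_right _ (Nat.cast_nonneg _)
  rw [mul_sum]
  refine sum_le_sum fun x _ => ?_
  by_cases hQ : Q x
  · rw [if_pos hQ, mul_one]
    calc ∑ l ∈ S, (if P l x then (1 : ℝ) else 0) = ((S.filter (fun l => P l x)).card : ℝ) := by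
          rw [card_filter]
          push_cast
          rfl
      _ ≤ ((U x).card : ℝ) := by
          exact_mod_cast card_le_card fun l hl => hU x l (mem_filter.1 hl).1 (mem_filter.1 hl).2
      _ ≤ c := by exact_mod_cast hc x
  · rw [if_neg hQ, mul_zero]
    apply le_of_eq
    refine sum_eq_zero fun l hl => ?_
    rw [if_neg fun h' => hQ (h x l hl h')]

theorem dgr_le {n : ℕ} (G : SimpleGraph (Fin n)) (v : Fin n) : dgr G v ≤ n := by
  unfold dgr
  calc (nbr G v).card ≤ (univ : Finset (Fin n)).card := card_le_card (subset_univ _)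
    _ = n := by rw [card_univ, Fintype.card_fin]

theorem tb_anti (d : ℕ) {a b : ℕ} (h : a ≤ b) : tb d b ≤ tb d a := by
  unfold tb
  exact sum_le_sum_of_subset_of_nonneg (Icc_subset_Icc h le_rfl) fun i _ _ => pb_nonneg _ _

theorem gap_of (h1 : S_level) (h2 : S_conc) (h3 : S_deg_eq) (h4 : S_deg_ge) (h5 : S_pair_eq)
    (h6 : S_tb_one) : S_gap := by
  intro p hp g δ hδ
  obtain ⟨ε, hε, hlev⟩ := h1 p hp
  obtain ⟨n1, hn1⟩ := hlev (δ / 4) (by positivity)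
  obtain ⟨n2, hn2⟩ := h2
  obtain ⟨n3, hn3⟩ := h6 p hp
  have hpow : ∀ r : ℝ, 0 < r → ∀ c : ℝ, 0 < c → ∀ᶠ n : ℕ in atTop, (n : ℝ) ^ (-r) ≤ c := by
    intro r hr c hc
    exact ((tendsto_rpow_neg_atTop hr).comp tendsto_natCast_atTop_atTop).eventually_le_const hc
  have q1 : ∀ᶠ n : ℕ in atTop, (g : ℝ) + 1 ≤ ε * (n : ℝ) ^ (9 / 20 : ℝ) :=
    (((tendsto_rpow_atTop (show (0 : ℝ) < 9 / 20 by norm_num)).comp
      tendsto_natCast_atTop_atTop).const_mul_atTop hε).eventually_ge_atTop _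
  have q2 : ∀ᶠ n : ℕ in atTop, (g : ℝ) ≤ p / 10 * n :=
    (tendsto_natCast_atTop_atTop.const_mul_atTop
      (show (0 : ℝ) < p / 10 by positivity)).eventually_ge_atTop _
  obtain ⟨n4, hn4⟩ := eventually_atTop.1 (facts p hp)
  obtain ⟨n5, hn5⟩ := eventually_atTop.1 (((q1.and q2).and (hpow 5 (by norm_num) (δ / 4)
    (by positivity))).and ((hpow (34 / 100) (by norm_num) (δ / (36 * (g + 1)))
    (by positivity)).and (hpow (597 / 100) (by norm_num) (δ / (36 * (g + 1))) (by positivity))))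
  refine ⟨n1 + n2 + n3 + n4 + n5, fun n hn F R hC => ?_⟩
  obtain ⟨hn0', hL4, hLx, hnL, -, -, -⟩ := hn4 n (by omega)
  obtain ⟨⟨⟨r1, r2⟩, r3⟩, r4, r5⟩ := hn5 n (by omega)
  have hn0 : (0 : ℝ) < n := by exact_mod_cast hn0'
  obtain ⟨t, ht1, ht2⟩ := hn1 n (by omega) F R hC
  have hFR := hC.1
  have hconc := hn2 n (by omega) F R hFR
  obtain ⟨GS, hGS⟩ : ∃ GS : Finset (Fin n), GS = univ.filter (fun v => p * n ≤ dgr R v) := ⟨_, rfl⟩
  have hmem : ∀ v, v ∈ GS ↔ p * n ≤ dgr R v := by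
    intro v
    rw [hGS, mem_filter]
    simp
  obtain ⟨s, hs⟩ : ∃ s : ℕ, s = t - g - 1 := ⟨_, rfl⟩
  have hFs := ht2 s (by
    have h7 : (t : ℝ) ≤ s + (g + 1) := by
      have : t ≤ s + (g + 1) := by omega
      exact_mod_cast this
    have h8 : ε * (n : ℝ) ^ (9 / 20 : ℝ) ≤ ε * Lm n := mul_le_mul_of_nonneg_left hnL hε.le
    linarith)
  rw [← hGS] at hFs
  obtain ⟨E3, hE3⟩ : ∃ E3 : Coins n → Prop, E3 = fun χ => ∃ v ∈ GS, ∃ l ∈ Icc (t - g) n,
      ∃ i ∈ range g, ∃ u ∈ GS.erase v, dgr (rg F R χ) u = l + i ∧ dgr (rg F R χ) v = l := ⟨_, rfl⟩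
  -- the events
  have hev : ∀ χ, (¬ ∃ v₀, ∀ v, v ≠ v₀ → dgr (rg F R χ) v + g ≤ dgr (rg F R χ) v₀) →
      (∀ v, dgr (rg F R χ) v < t) ∨ ((∃ v, 4 * Lm n ≤ |2 * (dgr (rg F R χ) v : ℝ) - mean2 F R v|) ∨
        E3 χ) := by
    intro χ hgap
    by_contra hcon
    push Not at hcon
    obtain ⟨⟨v1, hv1⟩, hc2, hc3⟩ := hcon
    push Not at hgap
    obtain ⟨u0, -, hu0⟩ := exists_max_image univ (fun v => dgr (rg F R χ) v) ⟨v1, mem_univ v1⟩
    obtain ⟨v, hvne, hv⟩ := hgap u0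
    have hDt : t ≤ dgr (rg F R χ) u0 := hv1.trans (hu0 v1 (mem_univ v1))
    have hvD := hu0 v (mem_univ v)
    have hgood : ∀ w, dgr (rg F R χ) u0 < dgr (rg F R χ) w + g ∨ w = u0 → w ∈ GS := by
      intro w hw
      rw [hmem]
      by_contra hcon
      rcases hC.2 w with h | ⟨u, hu⟩
      · exact hcon h
      · have h7 := hc2 w
        have h8 := hc2 u
        rw [abs_lt] at h7 h8
        have h9 : (dgr (rg F R χ) u : ℝ) ≤ dgr (rg F R χ) u0 := by
          exact_mod_cast hu0 u (mem_univ u)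
        have h10 : (dgr (rg F R χ) u0 : ℝ) ≤ dgr (rg F R χ) w + g := by
          rcases hw with h | h
          · exact_mod_cast h.le
          · rw [h]
            have : (0 : ℝ) ≤ g := Nat.cast_nonneg g
            linarith
        have h11 : Lm n ≤ p * n / 40 := by
          rw [div_le_iff₀ (by positivity)] at hLx
          linarith
        have hpn : 0 < p * n := by positivity
        linarith
    apply hc3
    rw [hE3]
    refine ⟨v, hgood v (Or.inl hv), dgr (rg F R χ) v, ?_, dgr (rg F R χ) u0 - dgr (rg F R χ) v, ?_,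
      u0, ?_, ?_, rfl⟩
    · rw [mem_Icc]
      exact ⟨by omega, dgr_le _ _⟩
    · rw [mem_range]
      omega
    · exact mem_erase.2 ⟨hvne.symm, hgood u0 (Or.inr rfl)⟩
    · omega
  -- the inner sum
  obtain ⟨A, hA⟩ : ∃ A : ℝ, A = 3 * ((n : ℝ) ^ (-(2 / 5) : ℝ) * (n : ℝ) ^ (3 / 100 : ℝ) +
      (n : ℝ) ^ (-6 : ℝ)) := ⟨_, rfl⟩
  have hA0 : 0 ≤ A := by rw [hA]; positivity
  have hone : ∀ u ∈ GS, ∀ j, s ≤ j → pr (fun χ => dgr (rg F R χ) u = j) ≤
      (n : ℝ) ^ (-(2 / 5) : ℝ) * pr (fun χ => s ≤ dgr (rg F R χ) u) + (n : ℝ) ^ (-7 : ℝ) := by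
    intro u hu j hj
    have k1 := h3 n F R hFR u j
    have k2 := hn3 n (by omega) (dgr R u) (j - dgr F u) ((hmem u).1 hu) (dgr_le R u)
    have k3 : tb (dgr R u) (j - dgr F u + 1) ≤ pr (fun χ => s ≤ dgr (rg F R χ) u) := by
      rw [h4 n F R hFR u s]
      exact tb_anti _ (by omega)
    have k4 : (n : ℝ) ^ (-(2 / 5) : ℝ) * tb (dgr R u) (j - dgr F u + 1) ≤
        (n : ℝ) ^ (-(2 / 5) : ℝ) * pr (fun χ => s ≤ dgr (rg F R χ) u) := by gcongr
    linarith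
  have hthree : ∀ u ∈ GS, ∀ k, t - g ≤ k →
      pr (fun χ => k - 1 ≤ dgr (rg F R χ) u ∧ dgr (rg F R χ) u ≤ k + 1) ≤
        3 * ((n : ℝ) ^ (-(2 / 5) : ℝ) * pr (fun χ => s ≤ dgr (rg F R χ) u) +
          (n : ℝ) ^ (-7 : ℝ)) := by
    intro u hu k hk
    have k1 := hone u hu (k - 1) (by omega)
    have k2 := hone u hu k (by omega)
    have k3 := hone u hu (k + 1) (by omega)
    have k4 : pr (fun χ => k - 1 ≤ dgr (rg F R χ) u ∧ dgr (rg F R χ) u ≤ k + 1) ≤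
        pr (fun χ => dgr (rg F R χ) u = k - 1) +
          pr (fun χ => dgr (rg F R χ) u = k ∨ dgr (rg F R χ) u = k + 1) := by
      apply pr_le_add
      rintro χ ⟨ha, hb⟩
      omega
    have k5 := pr_or (fun χ : Coins n => dgr (rg F R χ) u = k)
      (fun χ => dgr (rg F R χ) u = k + 1)
    linarith
  have hsumA : ∀ k, t - g ≤ k → ∀ v, ∑ u ∈ GS.erase v,
      pr (fun χ => k - 1 ≤ dgr (rg F R χ) u ∧ dgr (rg F R χ) u ≤ k + 1) ≤ A := by
    intro k hk v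
    have k1 : ∑ u ∈ GS.erase v,
        pr (fun χ => k - 1 ≤ dgr (rg F R χ) u ∧ dgr (rg F R χ) u ≤ k + 1) ≤
        ∑ u ∈ GS, 3 * ((n : ℝ) ^ (-(2 / 5) : ℝ) * pr (fun χ => s ≤ dgr (rg F R χ) u) +
          (n : ℝ) ^ (-7 : ℝ)) := by
      refine (sum_le_sum_of_subset_of_nonneg (erase_subset v GS)
        fun _ _ _ => pr_nonneg _).trans ?_
      exact sum_le_sum fun u hu => hthree u hu k hk
    refine k1.trans ?_
    rw [← mul_sum, sum_add_distrib, ← mul_sum, sum_const, nsmul_eq_mul, hA]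
    have k2 : (GS.card : ℝ) * (n : ℝ) ^ (-7 : ℝ) ≤ (n : ℝ) ^ (-6 : ℝ) := by
      have k3 : (GS.card : ℝ) ≤ n := by
        have : GS.card ≤ n := by
          calc GS.card ≤ (univ : Finset (Fin n)).card := card_le_card (subset_univ _)
            _ = n := by rw [card_univ, Fintype.card_fin]
        exact_mod_cast this
      calc (GS.card : ℝ) * (n : ℝ) ^ (-7 : ℝ) ≤ n * (n : ℝ) ^ (-7 : ℝ) := by gcongr
        _ = (n : ℝ) ^ (-6 : ℝ) := by
          rw [show (-6 : ℝ) = 1 + -7 by norm_num, Real.rpow_add hn0, Real.rpow_one]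
    gcongr
  -- the event E3
  have hE : pr E3 ≤ ∑ v ∈ GS, ∑ l ∈ Icc (t - g) n, ∑ _i ∈ range g,
      A * pr (fun χ => l - 1 ≤ dgr (rg F R χ) v ∧ dgr (rg F R χ) v ≤ l + 1) := by
    rw [hE3]
    refine (pr_exists GS _).trans (sum_le_sum fun v hv => ?_)
    refine (pr_exists (Icc (t - g) n) _).trans (sum_le_sum fun l hl => ?_)
    refine (pr_exists (range g) _).trans (sum_le_sum fun i hi => ?_)
    refine (pr_exists (GS.erase v) _).trans ?_
    rw [mem_Icc] at hl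
    calc ∑ u ∈ GS.erase v, pr (fun χ => dgr (rg F R χ) u = l + i ∧ dgr (rg F R χ) v = l)
        ≤ ∑ u ∈ GS.erase v,
            pr (fun χ => l + i - 1 ≤ dgr (rg F R χ) u ∧ dgr (rg F R χ) u ≤ l + i + 1) *
            pr (fun χ => l - 1 ≤ dgr (rg F R χ) v ∧ dgr (rg F R χ) v ≤ l + 1) :=
          sum_le_sum fun u hu => h5 n F R hFR u v (l + i) l (mem_erase.1 hu).1
      _ = (∑ u ∈ GS.erase v,
            pr (fun χ => l + i - 1 ≤ dgr (rg F R χ) u ∧ dgr (rg F R χ) u ≤ l + i + 1)) *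
            pr (fun χ => l - 1 ≤ dgr (rg F R χ) v ∧ dgr (rg F R χ) v ≤ l + 1) := by
          rw [sum_mul]
      _ ≤ A * pr (fun χ => l - 1 ≤ dgr (rg F R χ) v ∧ dgr (rg F R χ) v ≤ l + 1) :=
          mul_le_mul_of_nonneg_right (hsumA (l + i) (by omega) v) (pr_nonneg _)
  have hE' : pr E3 ≤ g * A * (3 * (n : ℝ) ^ (3 / 100 : ℝ)) := by
    refine hE.trans ?_
    simp only [sum_const, card_range, nsmul_eq_mul]
    have k1 : ∀ v ∈ GS, ∑ l ∈ Icc (t - g) n, (g : ℝ) * (A *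
        pr (fun χ => l - 1 ≤ dgr (rg F R χ) v ∧ dgr (rg F R χ) v ≤ l + 1)) ≤
        (g : ℝ) * A * (3 * pr (fun χ => s ≤ dgr (rg F R χ) v)) := by
      intro v _
      rw [← mul_sum, ← mul_sum, ← mul_assoc]
      apply mul_le_mul_of_nonneg_left _ (by positivity)
      refine sum_pr_le (Icc (t - g) n)
        (fun l χ => l - 1 ≤ dgr (rg F R χ) v ∧ dgr (rg F R χ) v ≤ l + 1) _ 3 ?_
        (fun χ => Icc (dgr (rg F R χ) v - 1) (dgr (rg F R χ) v + 1)) ?_ ?_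
      · intro χ l hl hP
        rw [mem_Icc] at hl
        have := hP.1
        omega
      · intro χ l _ hP
        rw [mem_Icc]
        have h7 := hP.1
        have h8 := hP.2
        omega
      · intro χ
        rw [Nat.card_Icc]
        omega
    refine (sum_le_sum k1).trans ?_
    rw [← mul_sum, ← mul_sum]
    gcongr
  have hfin : g * A * (3 * (n : ℝ) ^ (3 / 100 : ℝ)) ≤ δ / 2 := by
    have e1 : g * A * (3 * (n : ℝ) ^ (3 / 100 : ℝ)) =
        9 * g * ((n : ℝ) ^ (-(34 / 100) : ℝ) + (n : ℝ) ^ (-(597 / 100) : ℝ)) := by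
      have e2 : (n : ℝ) ^ (-(34 / 100) : ℝ) = (n : ℝ) ^ (-(2 / 5) : ℝ) * (n : ℝ) ^ (3 / 100 : ℝ) *
          (n : ℝ) ^ (3 / 100 : ℝ) := by
        rw [← Real.rpow_add hn0, ← Real.rpow_add hn0]
        norm_num
      have e3 : (n : ℝ) ^ (-(597 / 100) : ℝ) = (n : ℝ) ^ (-6 : ℝ) * (n : ℝ) ^ (3 / 100 : ℝ) := by
        rw [← Real.rpow_add hn0]
        norm_num
      rw [e2, e3, hA]
      ring
    rw [e1]
    have hg0 : (0 : ℝ) ≤ g := Nat.cast_nonneg g
    have e4 : 9 * (g : ℝ) * (δ / (36 * (g + 1)) + δ / (36 * (g + 1))) ≤ δ / 2 := by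
      have e5 : 9 * (g : ℝ) * (δ / (36 * (g + 1)) + δ / (36 * (g + 1))) =
          (g / (g + 1)) * (δ / 2) := by
        field_simp
        ring
      rw [e5]
      have e6 : (g : ℝ) / (g + 1) ≤ 1 := by
        rw [div_le_one (by positivity)]
        linarith
      calc (g : ℝ) / (g + 1) * (δ / 2) ≤ 1 * (δ / 2) := by gcongr
        _ = δ / 2 := one_mul _
    refine le_trans ?_ e4
    gcongr
  have f1 := pr_le_add hev
  have f2 := pr_or (fun χ : Coins n => ∃ v, 4 * Lm n ≤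
    |2 * (dgr (rg F R χ) v : ℝ) - mean2 F R v|) E3
  linarith

end Pool.Agent.Y891.RS
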