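import Pool.Agent.Y393.RS.Stmts
import Pool.Agent.H162R2.AG.P1

set_option autoImplicit false

/-! Project RS: binomial tails and concentration of the degrees. -/

namespace Pool.Agent.Y891.RS

open Finset Pool.Agent.Y393.RS

theorem pr_nonneg {Ω : Type} [Fintype Ω] (P : Ω → Prop) : 0 ≤ pr P := by
  unfold pr
  positivity

theorem pr_mono {Ω : Type} [Fintype Ω] {P Q : Ω → Prop} (h : ∀ x, P x → Q x) : pr P ≤ pr Q := by
  classical
  unfold pr
  apply div_le_div_of_nonneg_right _ (Nat.cast_nonneg _)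
  exact_mod_cast card_le_card (monotone_filter_right _ (fun x _ hx => h x hx))

theorem pr_le_add {Ω : Type} [Fintype Ω] {P Q R : Ω → Prop} (h : ∀ x, R x → P x ∨ Q x) :
    pr R ≤ pr P + pr Q := by
  classical
  unfold pr
  rw [← add_div]
  apply div_le_div_of_nonneg_right _ (Nat.cast_nonneg _)
  have h1 : univ.filter R ⊆ univ.filter P ∪ univ.filter Q := by
    intro x hx
    rw [mem_filter] at hx
    rw [mem_union, mem_filter, mem_filter]
    rcases h x hx.2 with h | h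
    · exact Or.inl ⟨hx.1, h⟩
    · exact Or.inr ⟨hx.1, h⟩
  exact_mod_cast (card_le_card h1).trans (card_union_le _ _)

theorem pr_or {Ω : Type} [Fintype Ω] (P Q : Ω → Prop) :
    pr (fun x => P x ∨ Q x) ≤ pr P + pr Q := pr_le_add fun _ h => h

theorem pr_exists {Ω ι : Type} [Fintype Ω] (S : Finset ι) (P : ι → Ω → Prop) :
    pr (fun x => ∃ i ∈ S, P i x) ≤ ∑ i ∈ S, pr (P i) := by
  classical
  induction S using Finset.induction_on with
  | empty =>
    have : pr (fun x : Ω => ∃ i ∈ (∅ : Finset ι), P i x) = 0 := by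
      unfold pr
      simp
    rw [this, sum_empty]
  | insert a s ha ih =>
    rw [sum_insert ha]
    refine (pr_mono (Q := fun x => P a x ∨ ∃ i ∈ s, P i x) ?_).trans ((pr_or _ _).trans ?_)
    · rintro x ⟨i, hi, hx⟩
      rcases mem_insert.1 hi with rfl | hi
      · exact Or.inl hx
      · exact Or.inr ⟨i, hi, hx⟩
    · linarith

theorem two_heads {ι : Type} [Fintype ι] [DecidableEq ι] (S : Finset ι) (χ : ι → Bool) :
    2 * ((S.filter (fun i => χ i = true)).card : ℝ) - S.card =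
      ∑ c, (if c ∈ S then (1 : ℝ) else 0) * Pool.Agent.H162R2.AG.sg (χ c) := by
  have h1 : ∑ c, (if c ∈ S then (1 : ℝ) else 0) * Pool.Agent.H162R2.AG.sg (χ c) =
      ∑ c ∈ S, Pool.Agent.H162R2.AG.sg (χ c) := by
    simp only [ite_mul, one_mul, zero_mul]
    rw [Finset.sum_ite_mem, univ_inter]
  rw [h1, card_filter]
  have h2 : (S.card : ℝ) = ∑ _c ∈ S, (1 : ℝ) := by simp
  rw [h2]
  push_cast
  rw [mul_sum, ← sum_sub_distrib]
  refine sum_congr rfl fun c _ => ?_
  unfold Pool.Agent.H162R2.AG.sg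
  cases χ c <;> norm_num

theorem heads_tail {ι : Type} [Fintype ι] [DecidableEq ι] (S : Finset ι) (n : ℕ) (hn : 2 ≤ n)
    (hS : S.card ≤ n) :
    pr (fun χ : ι → Bool => 4 * Lm n ≤ |2 * ((S.filter (fun i => χ i = true)).card : ℝ) - S.card|) ≤
      2 * (n : ℝ) ^ (-8 : ℝ) := by
  classical
  have hn0 : (0 : ℝ) < n := by exact_mod_cast (by omega : 0 < n)
  have hL0 : 0 ≤ Lm n := Real.sqrt_nonneg _
  have hlog : 0 ≤ Real.log n := Real.log_nonneg (by exact_mod_cast (by omega : 1 ≤ n))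
  have h := Pool.Agent.H162R2.AG.P1 ι (fun c => if c ∈ S then (1 : ℝ) else 0) n (4 * Lm n) hn0
    (by positivity) (by
      have : ∑ c, (if c ∈ S then (1 : ℝ) else 0) ^ 2 = S.card := by
        simp
      rw [this]
      exact_mod_cast hS)
  have h2 : -((4 * Lm n) ^ 2) / (2 * (n : ℝ)) = -8 * Real.log n := by
    have : (Lm n) ^ 2 = n * Real.log n := by
      unfold Lm
      exact Real.sq_sqrt (by positivity)
    rw [mul_pow, this]
    field_simp
    ring
  rw [h2] at h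
  have h3 : Real.exp (-8 * Real.log n) = (n : ℝ) ^ (-8 : ℝ) := by
    rw [Real.rpow_def_of_pos hn0, mul_comm]
  rw [h3] at h
  have h4 : pr (fun χ : ι → Bool =>
      4 * Lm n ≤ |2 * ((S.filter (fun i => χ i = true)).card : ℝ) - S.card|) =
      Pool.Agent.H162R2.AG.cnt (fun χ : ι → Bool =>
        4 * Lm n ≤ |∑ c, (if c ∈ S then (1 : ℝ) else 0) * Pool.Agent.H162R2.AG.sg (χ c)|) /
        2 ^ Fintype.card ι := by
    unfold pr Pool.Agent.H162R2.AG.cnt
    simp only [two_heads]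
    congr 1
    · simp
  rw [h4, div_le_iff₀ (by positivity)]
  exact h

theorem tb_tail_of (h : S_bin_ge) : S_tb_tail := by
  refine ⟨2, fun n hn d k hd hk => ?_⟩
  have hn0 : (0 : ℝ) < n := by exact_mod_cast (by omega : 0 < n)
  have h1 := h (Fin d) univ k
  rw [card_univ, Fintype.card_fin] at h1
  rw [← h1]
  have h2 := heads_tail (univ : Finset (Fin d)) n hn (by rw [card_univ, Fintype.card_fin]; exact hd)
  refine (pr_mono ?_).trans (h2.trans ?_)
  · intro χ hχ
    have h3 : (k : ℝ) ≤ ((univ.filter (fun i : Fin d => χ i = true)).card : ℝ) := by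
      exact_mod_cast hχ
    rw [card_univ, Fintype.card_fin]
    refine le_trans ?_ (le_abs_self _)
    linarith
  · have h3 : (n : ℝ) ^ (-7 : ℝ) = n * (n : ℝ) ^ (-8 : ℝ) := by
      rw [show (-7 : ℝ) = 1 + -8 by norm_num, Real.rpow_add hn0, Real.rpow_one]
    rw [h3]
    have h4 : (2 : ℝ) ≤ n := by exact_mod_cast hn
    gcongr

theorem conc_of (h : S_dgr) : S_conc := by
  refine ⟨2, fun n hn F R hFR => ?_⟩
  have hn0 : (0 : ℝ) < n := by exact_mod_cast (by omega : 0 < n)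
  have h1 : pr (fun χ => ∃ v, 4 * Lm n ≤ |2 * (dgr (rg F R χ) v : ℝ) - mean2 F R v|) ≤
      ∑ v : Fin n, pr (fun χ => 4 * Lm n ≤ |2 * (dgr (rg F R χ) v : ℝ) - mean2 F R v|) := by
    refine (pr_mono ?_).trans (pr_exists univ
      (fun (v : Fin n) (χ : Coins n) => 4 * Lm n ≤ |2 * (dgr (rg F R χ) v : ℝ) - mean2 F R v|))
    rintro χ ⟨v, hv⟩
    exact ⟨v, mem_univ v, hv⟩
  refine h1.trans ?_
  have h2 : ∀ v : Fin n, pr (fun χ => 4 * Lm n ≤ |2 * (dgr (rg F R χ) v : ℝ) - mean2 F R v|) ≤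
      2 * (n : ℝ) ^ (-8 : ℝ) := by
    intro v
    obtain ⟨S, hS1, -, hS2⟩ := h n F R hFR v
    have hSn : S.card ≤ n := by
      rw [hS1]
      unfold dgr
      calc (nbr R v).card ≤ (univ : Finset (Fin n)).card := card_le_card (subset_univ _)
        _ = n := by rw [card_univ, Fintype.card_fin]
    refine (pr_mono ?_).trans (heads_tail S n hn hSn)
    intro χ hχ
    have h3 : 2 * (dgr (rg F R χ) v : ℝ) - mean2 F R v =
        2 * ((S.filter (fun e => χ e = true)).card : ℝ) - S.card := by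
      rw [hS2 χ]
      unfold mean2
      rw [← hS1]
      push_cast
      ring
    rwa [h3] at hχ
  refine (sum_le_sum fun v _ => h2 v).trans ?_
  rw [sum_const, card_univ, Fintype.card_fin, nsmul_eq_mul]
  have h3 : (n : ℝ) ^ (-5 : ℝ) = n * (n * (n * (n : ℝ) ^ (-8 : ℝ))) := by
    rw [show (-5 : ℝ) = 1 + (1 + (1 + -8)) by norm_num, Real.rpow_add hn0, Real.rpow_add hn0,
      Real.rpow_add hn0, Real.rpow_one]
  rw [h3]
  have h4 : (2 : ℝ) ≤ n := by exact_mod_cast hn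
  have h5 : (0 : ℝ) < (n : ℝ) ^ (-8 : ℝ) := Real.rpow_pos_of_pos hn0 _
  have h6 : 2 * (n : ℝ) ^ (-8 : ℝ) ≤ n * (n * (n : ℝ) ^ (-8 : ℝ)) := by
    have h7 : (n : ℝ) ^ (-8 : ℝ) ≤ n * (n : ℝ) ^ (-8 : ℝ) := by nlinarith
    calc 2 * (n : ℝ) ^ (-8 : ℝ) ≤ n * (n : ℝ) ^ (-8 : ℝ) := by gcongr
      _ ≤ n * (n * (n : ℝ) ^ (-8 : ℝ)) := by gcongr
  gcongr

end Pool.Agent.Y891.RS
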